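import Pool.Agent.Q155.Growth.Main

set_option autoImplicit false

namespace Pool.Agent.Results.MP_25dd1e_co.Determination

open Q155.Shift Q155.Growth

/-- For all positive integers `b, c, k` with `b ≤ c`: `N(b, c, k)` equals `value b c k`, and for
every `n` every acceptable sequence `a 0, ..., a n` hits `k` exactly when `value b c k ≤ n`. -/
theorem result (b c k : ℕ) (hb : 0 < b) (hk : 0 < k) (hbc : b ≤ c) :
    N b c k = value b c k ∧
      ∀ n : ℕ, ((∀ a : ℕ → ℤ, Admissible b c n a → Hits k n a) ↔ value b c k ≤ n) :=
  main b c k hb hk hbc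

end Pool.Agent.Results.MP_25dd1e_co.Determination
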